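import Pool.Agent.R473.JC.Joint

/-!
# Pairs of real numbers with a joint transcendence measure
-/

set_option autoImplicit false

namespace Pool.Agent.R473.JC

open Finset Polynomial Module Pool.Agent.R356 Pool.Agent.TH456.TM

theorem jointR_of_alg (x : ℝ) (hx : MeasT (x : ℂ)) (u v : ℝ)
    (h : IsAlgebraic (Algebra.adjoin ℤ ({u, v} : Set ℝ)) x) : JointR u v := by
  obtain ⟨p, hp, hp0⟩ := h
  have hmem : ∀ y ∈ Algebra.adjoin ℤ ({u, v} : Set ℝ),
      ((y : ℝ) : ℂ) ∈ Algebra.adjoin ℤ ({(u : ℂ), (v : ℂ)} : Set ℂ) := by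
    intro y hy
    have h1 := AlgHom.map_adjoin (Complex.ofRealHom.toIntAlgHom) ({u, v} : Set ℝ)
    rw [Set.image_pair] at h1
    have h2 : (Complex.ofRealHom.toIntAlgHom) y ∈
        Subalgebra.map (Complex.ofRealHom.toIntAlgHom) (Algebra.adjoin ℤ ({u, v} : Set ℝ)) :=
      Subalgebra.mem_map.2 ⟨y, hy, rfl⟩
    rw [h1] at h2
    exact h2
  obtain ⟨ψ, hψ⟩ : ∃ ψ : (Algebra.adjoin ℤ ({u, v} : Set ℝ)) →+*
      (Algebra.adjoin ℤ ({(u : ℂ), (v : ℂ)} : Set ℂ)), ∀ y, ((ψ y : _) : ℂ) = ((y : ℝ) : ℂ) :=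
    ⟨RingHom.codRestrict (Complex.ofRealHom.comp (algebraMap _ ℝ)) _ fun y => hmem y y.2,
      fun y => rfl⟩
  have hinj : Function.Injective ψ := by
    intro y y' hyy
    have h1 := congrArg (fun z : Algebra.adjoin ℤ ({(u : ℂ), (v : ℂ)} : Set ℂ) => (z : ℂ)) hyy
    simp only [hψ] at h1
    exact Subtype.ext (by exact_mod_cast h1)
  intro D
  obtain ⟨κ, C, hκ, hC, hj⟩ := joint (x : ℂ) hx u v ⟨p.map ψ, by
    rwa [Ne, Polynomial.map_eq_zero_iff hinj], by
    rw [aeval_def, eval₂_map]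
    have h1 : (algebraMap (Algebra.adjoin ℤ ({(u : ℂ), (v : ℂ)} : Set ℂ)) ℂ).comp ψ =
        Complex.ofRealHom.comp (algebraMap (Algebra.adjoin ℤ ({u, v} : Set ℝ)) ℝ) := by
      ext y
      exact hψ y
    rw [h1]
    have h2 := hom_eval₂ p (algebraMap (Algebra.adjoin ℤ ({u, v} : Set ℝ)) ℝ) Complex.ofRealHom x
    rw [aeval_def] at hp0
    rw [hp0, map_zero] at h2
    exact h2.symm⟩ D
  refine ⟨κ, C, hκ, hC, fun P Q hP hQ hPD hQD H hPH hQH => ?_⟩
  rw [abs_aeval, abs_aeval]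
  exact hj P Q hP hQ hPD hQD H (one_le_of_coeff P hP H hPH) hPH hQH

/-- an algebraic relation with coefficients in `ℤ[u, v]` of the form `F(x) = y` -/
lemma alg_of_eq (u v x : ℝ) (F : (Algebra.adjoin ℤ ({u, v} : Set ℝ))[X]) (hF : F.natDegree ≠ 0)
    (y : ℝ) (hy : y ∈ Algebra.adjoin ℤ ({u, v} : Set ℝ)) (h : aeval x F = y) :
    IsAlgebraic (Algebra.adjoin ℤ ({u, v} : Set ℝ)) x := by
  refine IsAlgebraic.of_aeval F hF ?_ ?_
  · rw [mem_nonZeroDivisors_iff_ne_zero, Ne, leadingCoeff_eq_zero]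
    intro h0
    rw [h0] at hF
    simp at hF
  · rw [h]
    exact isAlgebraic_algebraMap (⟨y, hy⟩ : Algebra.adjoin ℤ ({u, v} : Set ℝ))

lemma mem_u (u v : ℝ) : u ∈ Algebra.adjoin ℤ ({u, v} : Set ℝ) :=
  Algebra.subset_adjoin (by simp)

lemma mem_v (u v : ℝ) : v ∈ Algebra.adjoin ℤ ({u, v} : Set ℝ) :=
  Algebra.subset_adjoin (by simp)

/-- linear forms -/
theorem alg_lin (x t : ℝ) (a b c d : ℤ) (h : a * d - b * c ≠ 0) :
    IsAlgebraic (Algebra.adjoin ℤ ({a * x + b * t, c * x + d * t} : Set ℝ)) x := by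
  refine alg_of_eq _ _ x (C (((a * d - b * c : ℤ) : Algebra.adjoin ℤ _)) * X) ?_
    (d * (a * x + b * t) - b * (c * x + d * t)) ?_ ?_
  · rw [natDegree_C_mul_X]
    · norm_num
    · exact_mod_cast h
  · exact sub_mem (Subalgebra.mul_mem _ (intCast_mem _ d) (mem_u _ _))
      (Subalgebra.mul_mem _ (intCast_mem _ b) (mem_v _ _))
  · simp only [map_mul, aeval_C, aeval_X]
    push_cast
    simp only [map_intCast]
    ring

/-- quotients that are powers -/
theorem alg_quot (x z y : ℝ) (m : ℕ) (hm : m ≠ 0) (hz : z ≠ 0) (h : z * x ^ m = y) :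
    IsAlgebraic (Algebra.adjoin ℤ ({z, y} : Set ℝ)) x := by
  refine alg_of_eq _ _ x (C (⟨z, mem_u z y⟩ : Algebra.adjoin ℤ ({z, y} : Set ℝ)) * X ^ m) ?_ y
    (mem_v _ _) ?_
  · rw [natDegree_C_mul_X_pow]
    · exact hm
    · intro h0
      exact hz (congrArg (fun w : Algebra.adjoin ℤ ({z, y} : Set ℝ) => (w : ℝ)) h0)
  · simp only [map_mul, aeval_C, map_pow, aeval_X]
    exact h

/-- differences that are polynomials -/
theorem alg_diff (x t : ℝ) (f g : ℤ[X]) (h : (f - g).natDegree ≠ 0) :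
    IsAlgebraic (Algebra.adjoin ℤ ({t + aeval x f, t + aeval x g} : Set ℝ)) x := by
  refine alg_of_eq _ _ x ((f - g).map (Int.castRingHom _)) ?_
    ((t + aeval x f) - (t + aeval x g)) (sub_mem (mem_u _ _) (mem_v _ _)) ?_
  · rwa [natDegree_map_eq_of_injective]
    exact RingHom.injective_int _
  · rw [aeval_def, eval₂_map]
    have h1 : (algebraMap (Algebra.adjoin ℤ ({t + aeval x f, t + aeval x g} : Set ℝ)) ℝ).comp
        (Int.castRingHom _) = algebraMap ℤ ℝ := RingHom.ext_int _ _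
    rw [h1, ← aeval_def, map_sub]
    ring

/-- sum and product -/
theorem alg_add_mul (x t : ℝ) :
    IsAlgebraic (Algebra.adjoin ℤ ({x + t, x * t} : Set ℝ)) x := by
  refine alg_of_eq _ _ x (X ^ 2 - C (⟨x + t, mem_u _ _⟩ : Algebra.adjoin ℤ ({x + t, x * t} : Set ℝ))
    * X) ?_ (- (x * t)) (neg_mem (mem_v _ _)) ?_
  · have h1 : (X ^ 2 - C (⟨x + t, mem_u _ _⟩ : Algebra.adjoin ℤ ({x + t, x * t} : Set ℝ)) *
        X).natDegree = 2 := by
      compute_degree!
    rw [h1]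
    norm_num
  · simp only [map_sub, map_pow, map_mul, aeval_C, aeval_X]
    change x ^ 2 - (x + t) * x = - (x * t)
    ring

/-- the measures of `e`, `π` and the logarithms -/
theorem measT_three (x : ℝ)
    (hx : x = Real.exp 1 ∨ x = Real.pi ∨ ∃ q : ℚ, 0 < q ∧ q ≠ 1 ∧ x = Real.log q) :
    MeasT (x : ℂ) := by
  rcases hx with rfl | rfl | ⟨q, hq, hq1, rfl⟩
  · exact measT_e
  · exact measT_pi
  · exact measT_real_log q hq hq1

/-- `z x^i` and `z x^j` -/
theorem joint_powers (x : ℝ) (hx : MeasT (x : ℂ)) (z : ℝ) (hz : z ≠ 0) (i j : ℤ) (hij : i ≠ j) :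
    JointR (z * x ^ i) (z * x ^ j) := by
  have hx0 : x ≠ 0 := by
    intro h0
    have h1 := transcendental_of_measT hx
    apply h1
    rw [h0]
    exact ⟨X, X_ne_zero, by simp⟩
  have key : ∀ i j : ℤ, i < j → JointR (z * x ^ i) (z * x ^ j) := by
    intro i j hij
    refine jointR_of_alg x hx _ _ (alg_quot x (z * x ^ i) (z * x ^ j) (j - i).toNat (by omega)
      (mul_ne_zero hz (zpow_ne_zero _ hx0)) ?_)
    rw [mul_assoc, ← zpow_natCast x (j - i).toNat, Int.toNat_of_nonneg (by omega), ← zpow_add₀ hx0]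
    congr 2
    ring
  rcases lt_or_gt_of_ne hij with h | h
  · exact key i j h
  · exact (key j i h).symm

/-- the four numbers -/
theorem four_t (t : ℝ) (h0 : t ≠ 0) (h1 : t ≠ Real.exp 1) (h2 : t ≠ - Real.exp 1) (i j : Fin 4)
    (hij : i ≠ j) :
    JointR ((![t + Real.exp 1, t - Real.exp 1, t * Real.exp 1, t / Real.exp 1] : Fin 4 → ℝ) i)
      ((![t + Real.exp 1, t - Real.exp 1, t * Real.exp 1, t / Real.exp 1] : Fin 4 → ℝ) j) := by
  have he := Real.exp_pos 1
  have he0 : Real.exp 1 ≠ 0 := he.ne'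
  obtain ⟨e, hee⟩ : ∃ e : ℝ, e = Real.exp 1 := ⟨_, rfl⟩
  rw [← hee] at he he0 h1 h2 ⊢
  have hm : MeasT (e : ℂ) := by rw [hee]; exact measT_e
  have c01 : JointR (t + e) (t - e) := by
    refine jointR_of_alg e hm _ _ ?_
    have h3 := alg_lin e t 1 1 (-1) 1 (by norm_num)
    have e1 : ((1 : ℤ) : ℝ) * e + ((1 : ℤ) : ℝ) * t = t + e := by push_cast; ring
    have e2 : ((-1 : ℤ) : ℝ) * e + ((1 : ℤ) : ℝ) * t = t - e := by push_cast; ring
    rwa [e1, e2] at h3
  have c02 : JointR (t + e) (t * e) := by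
    refine jointR_of_alg e hm _ _ ?_
    have h3 := alg_add_mul e t
    rwa [add_comm e t, mul_comm e t] at h3
  have c03 : JointR (t + e) (t / e) := by
    refine jointR_of_alg e hm _ _ (alg_of_eq _ _ e
      (C ((⟨t / e, mem_v _ _⟩ : Algebra.adjoin ℤ ({t + e, t / e} : Set ℝ)) + 1) * X) ?_ (t + e)
      (mem_u _ _) ?_)
    · rw [natDegree_C_mul_X]
      · norm_num
      · intro h
        have h3 := congrArg (fun w : Algebra.adjoin ℤ ({t + e, t / e} : Set ℝ) => (w : ℝ)) h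
        change t / e + 1 = 0 at h3
        field_simp at h3
        apply h2
        linarith
    · simp only [map_mul, aeval_C, aeval_X]
      change (t / e + 1) * e = t + e
      field_simp
  have c12 : JointR (t - e) (t * e) := by
    refine jointR_of_alg e hm _ _ (alg_of_eq _ _ e
      (X ^ 2 + C (⟨t - e, mem_u _ _⟩ : Algebra.adjoin ℤ ({t - e, t * e} : Set ℝ)) * X) ?_ (t * e)
      (mem_v _ _) ?_)
    · have h3 : (X ^ 2 + C (⟨t - e, mem_u _ _⟩ : Algebra.adjoin ℤ ({t - e, t * e} : Set ℝ)) *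
          X).natDegree = 2 := by
        compute_degree!
      rw [h3]
      norm_num
    · simp only [map_add, map_pow, map_mul, aeval_C, aeval_X]
      change e ^ 2 + (t - e) * e = t * e
      ring
  have c13 : JointR (t - e) (t / e) := by
    refine jointR_of_alg e hm _ _ (alg_of_eq _ _ e
      (C ((⟨t / e, mem_v _ _⟩ : Algebra.adjoin ℤ ({t - e, t / e} : Set ℝ)) - 1) * X) ?_ (t - e)
      (mem_u _ _) ?_)
    · rw [natDegree_C_mul_X]
      · norm_num
      · intro h
        have h3 := congrArg (fun w : Algebra.adjoin ℤ ({t - e, t / e} : Set ℝ) => (w : ℝ)) h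
        change t / e - 1 = 0 at h3
        field_simp at h3
        apply h1
        linarith
    · simp only [map_mul, aeval_C, aeval_X]
      change (t / e - 1) * e = t - e
      field_simp
  have c23 : JointR (t * e) (t / e) := by
    refine JointR.symm (jointR_of_alg e hm _ _ (alg_quot e (t / e) (t * e) 2 (by norm_num)
      (div_ne_zero h0 he0) ?_))
    field_simp
  fin_cases i <;> fin_cases j <;> first | (exact absurd rfl hij) | skip
  · exact c01
  · exact c02
  · exact c03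
  · exact c01.symm
  · exact c12
  · exact c13
  · exact c02.symm
  · exact c12.symm
  · exact c23
  · exact c03.symm
  · exact c13.symm
  · exact c23.symm

end Pool.Agent.R473.JC
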