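import Pool.Agent.R473.JC.Est

/-!
# Relations for the digits of two numbers in two bases
-/

set_option autoImplicit false

namespace Pool.Agent.R473.JC

open Finset Polynomial Module Pool.Agent.W472.AC Pool.Agent.R473.EC Pool.Agent.TH629.ExpDig
  Pool.Agent.R356

/-- All the changes are among the first `t` and among the first `t'` digits. -/
theorem joint_last (u v : ℝ) (huv : JointR u v) (r : ℕ) : ∃ A : ℝ, 1 ≤ A ∧
    ∀ b b' : ℕ, 2 ≤ b → 2 ≤ b' → ∀ L L' k k' t t' : ℕ, t ≤ L → t' ≤ L' → ∀ s s' : ℕ → ℤ,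
      (∀ l, 0 ≤ s l ∧ s l < b) → (∀ l, 0 ≤ s' l ∧ s' l < b') →
      (∀ l, t < l → l ≤ L → s l = digit b u l) → (∀ l, t' < l → l ≤ L' → s' l = digit b' v l) →
      ARel s r L k → ARel s' r L' k' →
      L * Real.log b ≤ L' * Real.log b' + Real.log b' →
      L' * Real.log b' ≤ L * Real.log b + Real.log b →
      L * Real.log b ≤ A * ((k + 1 + t) * Real.log b + (k' + 1 + t') * Real.log b') := by
  obtain ⟨A₁, hA₁, h₁⟩ := poly_of_rel u r
  obtain ⟨A₂, hA₂, h₂⟩ := poly_of_rel v r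
  obtain ⟨κ, C, hκ, hC, hj⟩ := huv r
  obtain ⟨a, ha⟩ : ∃ a : ℝ, a = max A₁ A₂ := ⟨_, rfl⟩
  have ha1 : A₁ ≤ a := by rw [ha]; exact le_max_left _ _
  have ha2 : A₂ ≤ a := by rw [ha]; exact le_max_right _ _
  have ha0 : 1 ≤ a := hA₁.trans ha1
  obtain ⟨g, hg⟩ : ∃ g : ℝ, g = a * (1 + κ) := ⟨_, rfl⟩
  have hg1 : 1 ≤ g := by rw [hg]; nlinarith
  obtain ⟨N, hN⟩ : ∃ N : ℝ, N = 8 * g := ⟨_, rfl⟩
  have hN8 : 8 ≤ N := by rw [hN]; linarith
  have hlN : 0 ≤ Real.log N := Real.log_nonneg (by linarith)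
  refine ⟨2 * g + 8 + 4 * (g * Real.log N) + 4 * |Real.log C|,
    by linarith [abs_nonneg (Real.log C), mul_nonneg (by linarith : (0:ℝ) ≤ g) hlN], ?_⟩
  intro b b' hb hb' L L' k k' t t' htL htL' s s' hs hs' hst hst' hrel hrel' hc1 hc2
  obtain ⟨P, hP0, hPd, hPc, hPv⟩ := h₁ b hb L k t htL s hs hst hrel
  obtain ⟨Q, hQ0, hQd, hQc, hQv⟩ := h₂ b' hb' L' k' t' htL' s' hs' hst' hrel'
  have hbR : (2 : ℝ) ≤ b := by exact_mod_cast hb
  have hbR' : (2 : ℝ) ≤ b' := by exact_mod_cast hb'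
  have hlb : 1 / 2 < Real.log b := by
    have h1 := Real.log_le_log (by norm_num) hbR
    have h2 := Real.log_two_gt_d9
    linarith
  have hlb' : 1 / 2 < Real.log b' := by
    have h1 := Real.log_le_log (by norm_num) hbR'
    have h2 := Real.log_two_gt_d9
    linarith
  obtain ⟨lb, elb⟩ : ∃ x : ℝ, x = Real.log b := ⟨_, rfl⟩
  obtain ⟨lb', elb'⟩ : ∃ x : ℝ, x = Real.log b' := ⟨_, rfl⟩
  obtain ⟨lL, elL⟩ : ∃ x : ℝ, x = Real.log ((L : ℝ) + 1) := ⟨_, rfl⟩
  obtain ⟨lL', elL'⟩ : ∃ x : ℝ, x = Real.log ((L' : ℝ) + 1) := ⟨_, rfl⟩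
  rw [← elb, ← elL] at hPc hPv
  rw [← elb', ← elL'] at hQc hQv
  rw [← elb] at hlb
  rw [← elb'] at hlb'
  rw [← elb, ← elb'] at hc1 hc2 ⊢
  have hL0 : (0 : ℝ) ≤ L := Nat.cast_nonneg L
  have hL0' : (0 : ℝ) ≤ L' := Nat.cast_nonneg L'
  have hk0 : (0 : ℝ) ≤ k := Nat.cast_nonneg k
  have hk0' : (0 : ℝ) ≤ k' := Nat.cast_nonneg k'
  have ht0 : (0 : ℝ) ≤ t := Nat.cast_nonneg t
  have ht0' : (0 : ℝ) ≤ t' := Nat.cast_nonneg t'
  have hlL : 0 ≤ lL := by rw [elL]; exact Real.log_nonneg (by linarith)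
  have hlL' : 0 ≤ lL' := by rw [elL']; exact Real.log_nonneg (by linarith)
  obtain ⟨R, hR⟩ : ∃ x : ℝ, x = (k + 1 + t) * lb + (k' + 1 + t') * lb' := ⟨_, rfl⟩
  have hRb : lb + lb' ≤ R := by
    rw [hR]
    have h1 : 0 ≤ (k + t) * lb := by positivity
    have h2 : 0 ≤ (k' + t') * lb' := by positivity
    linarith
  have hΛ1 : 0 ≤ (k + 1 + t) * lb + lL := by positivity
  have hΛ2 : 0 ≤ (k' + 1 + t') * lb' + lL' := by positivity
  obtain ⟨Λ, hΛ⟩ : ∃ x : ℝ, x = ((k + 1 + t) * lb + lL) + ((k' + 1 + t') * lb' + lL') := ⟨_, rfl⟩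
  have hΛ0 : 0 ≤ Λ := by rw [hΛ]; positivity
  have e1 : A₁ * ((k + 1 + t) * lb + lL) ≤ a * Λ :=
    mul_le_mul ha1 (by rw [hΛ]; linarith) hΛ1 (by linarith)
  have e2 : A₂ * ((k' + 1 + t') * lb' + lL') ≤ a * Λ :=
    mul_le_mul ha2 (by rw [hΛ]; linarith) hΛ2 (by linarith)
  have hjj := hj P Q hP0 hQ0 hPd hQd (Real.exp (a * Λ))
    (fun i => (hPc i).trans (Real.exp_le_exp.2 e1)) (fun i => (hQc i).trans (Real.exp_le_exp.2 e2))
  obtain ⟨X, hX⟩ : ∃ x : ℝ, x = L * lb := ⟨_, rfl⟩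
  have hX0 : 0 ≤ X := by rw [hX]; positivity
  have hval : max |aeval u P| |aeval v Q| ≤ Real.exp (a * Λ - (X - lb')) := by
    refine max_le (hPv.trans (Real.exp_le_exp.2 ?_)) (hQv.trans (Real.exp_le_exp.2 ?_))
    · rw [hX]; linarith
    · rw [hX]; linarith
  have h5 := hjj.trans hval
  rw [← Real.exp_mul] at h5
  have h6 : Real.log C + a * Λ * -κ ≤ a * Λ - (X - lb') := by
    have h7 := Real.log_le_log (by positivity) h5
    rwa [Real.log_mul hC.ne' (Real.exp_pos _).ne', Real.log_exp, Real.log_exp] at h7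
  have h8 : X ≤ g * Λ + lb' + |Real.log C| := by
    rw [hg]
    have := neg_abs_le (Real.log C)
    linarith
  -- the logarithms of the lengths
  have hlog : ∀ y : ℝ, 0 ≤ y → Real.log (y + 1) ≤ (y + 1) / N + Real.log N := by
    intro y hy
    have h3 := Real.log_le_sub_one_of_pos (show 0 < (y + 1) / N by positivity)
    rw [Real.log_div (by positivity) (by positivity)] at h3
    linarith
  have f1 := hlog L hL0
  have f2 := hlog L' hL0'
  rw [← elL] at f1
  rw [← elL'] at f2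
  have g1 : (L : ℝ) + 1 ≤ 2 * (X + lb) := by
    have h9 : 1 * ((L : ℝ) + 1) ≤ 2 * lb * (L + 1) :=
      mul_le_mul_of_nonneg_right (by linarith) (by linarith)
    rw [hX]
    linarith
  have g2 : (L' : ℝ) + 1 ≤ 2 * (X + lb + lb') := by
    have h9 : (L' : ℝ) * lb' ≤ X + lb := by rw [hX]; exact hc2
    have h10 : 1 * ((L' : ℝ) + 1) ≤ 2 * lb' * (L' + 1) :=
      mul_le_mul_of_nonneg_right (by linarith) (by linarith)
    linarith
  have hNinv : g / N = 1 / 8 := by
    rw [hN]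
    field_simp
  have g3 : g * lL ≤ (X + lb) / 4 + g * Real.log N := by
    calc g * lL ≤ g * (((L : ℝ) + 1) / N + Real.log N) := mul_le_mul_of_nonneg_left f1 (by linarith)
      _ = (g / N) * ((L : ℝ) + 1) + g * Real.log N := by ring
      _ ≤ (g / N) * (2 * (X + lb)) + g * Real.log N := by
          have h9 : 0 ≤ g / N := by rw [hNinv]; norm_num
          have := mul_le_mul_of_nonneg_left g1 h9
          linarith
      _ = _ := by rw [hNinv]; ring
  have g4 : g * lL' ≤ (X + lb + lb') / 4 + g * Real.log N := by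
    calc g * lL' ≤ g * (((L' : ℝ) + 1) / N + Real.log N) :=
          mul_le_mul_of_nonneg_left f2 (by linarith)
      _ = (g / N) * ((L' : ℝ) + 1) + g * Real.log N := by ring
      _ ≤ (g / N) * (2 * (X + lb + lb')) + g * Real.log N := by
          have h9 : 0 ≤ g / N := by rw [hNinv]; norm_num
          have := mul_le_mul_of_nonneg_left g2 h9
          linarith
      _ = _ := by rw [hNinv]; ring
  have h9 : g * Λ = g * R + g * lL + g * lL' := by rw [hΛ, hR]; ring
  rw [← hX, ← hR]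
  have h10 : X ≤ 2 * (g * R) + 4 * (g * Real.log N) + 2 * |Real.log C| + 4 * (lb + lb') := by
    linarith
  have hR1 : 1 ≤ R := by linarith
  have h11 : 4 * (g * Real.log N) ≤ 4 * (g * Real.log N) * R := by
    have h12 : 0 ≤ 4 * (g * Real.log N) := by
      have := mul_nonneg (by linarith : (0 : ℝ) ≤ g) hlN
      linarith
    exact le_mul_of_one_le_right h12 hR1
  have h13 : 2 * |Real.log C| ≤ 4 * |Real.log C| * R := by
    have h14 := abs_nonneg (Real.log C)
    have h15 : 4 * |Real.log C| ≤ 4 * |Real.log C| * R :=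
      le_mul_of_one_le_right (by linarith) hR1
    linarith
  calc X ≤ 2 * (g * R) + 4 * (g * Real.log N) + 2 * |Real.log C| + 4 * (lb + lb') := h10
    _ ≤ 2 * (g * R) + 4 * (g * Real.log N) * R + 4 * |Real.log C| * R + 8 * R := by linarith
    _ = _ := by ring

/-- the places among `1, …, L` at which `s` is not the sequence of the digits -/
def chg (b : ℕ) (x : ℝ) (s : ℕ → ℤ) (L : ℕ) : Set ℕ := {l : ℕ | 1 ≤ l ∧ l ≤ L ∧ s l ≠ digit b x l}

lemma chg_fin (b : ℕ) (x : ℝ) (s : ℕ → ℤ) (L : ℕ) : (chg b x s L).Finite := by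
  refine (Set.finite_Icc 1 L).subset ?_
  rintro l ⟨h1, h2, _⟩
  exact ⟨h1, h2⟩

lemma chg_mono (b : ℕ) (x : ℝ) (s : ℕ → ℤ) {L L' : ℕ} (h : L ≤ L') :
    chg b x s L ⊆ chg b x s L' := fun _ hl => ⟨hl.1, hl.2.1.trans h, hl.2.2⟩

/-- the last change -/
lemma chg_last (b : ℕ) (x : ℝ) (s : ℕ → ℤ) (L : ℕ) : ∃ t, t ≤ L ∧
    (∀ l, t < l → l ≤ L → s l = digit b x l) ∧
    (1 ≤ t → (chg b x s (t - 1)).ncard + 1 ≤ (chg b x s L).ncard) := by
  rcases Set.eq_empty_or_nonempty (chg b x s L) with h0 | hne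
  · refine ⟨0, Nat.zero_le _, fun l hl hl' => ?_, fun h => absurd h (by norm_num)⟩
    by_contra hcon
    have : l ∈ chg b x s L := ⟨hl, hl', hcon⟩
    rw [h0] at this
    exact this
  · obtain ⟨t, ht, hmax⟩ := Set.exists_max_image _ id (chg_fin b x s L) hne
    obtain ⟨ht1, htL, hti⟩ := ht
    refine ⟨t, htL, fun l hl hl' => ?_, fun _ => ?_⟩
    · by_contra hcon
      have h5 := hmax l ⟨by omega, hl', hcon⟩
      simp only [id] at h5
      omega
    · have h1 : chg b x s (t - 1) ⊂ chg b x s L := by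
        rw [Set.ssubset_iff_of_subset (chg_mono b x s (by omega))]
        exact ⟨t, ⟨ht1, htL, hti⟩, fun h => by
          have := h.2.1
          omega⟩
      exact Set.ncard_lt_ncard h1 (chg_fin b x s L)

/-- **Two numbers, two bases, a bounded number of changes.** -/
theorem joint_errors (u v : ℝ) (huv : JointR u v) (r : ℕ) : ∃ A : ℝ, 1 ≤ A ∧
    ∀ b b' : ℕ, 2 ≤ b → 2 ≤ b' → ∀ K L L' k k' : ℕ, ∀ s s' : ℕ → ℤ,
      (∀ l, 0 ≤ s l ∧ s l < b) → (∀ l, 0 ≤ s' l ∧ s' l < b') →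
      (chg b u s L).ncard + (chg b' v s' L').ncard ≤ K →
      ARel s r L k → ARel s' r L' k' →
      min (L * Real.log b) (L' * Real.log b') ≤
        A ^ (K + 1) * ((k + 1) * Real.log b + (k' + 1) * Real.log b') := by
  obtain ⟨A, hA, hmain⟩ := joint_last u v huv r
  refine ⟨6 * A, by linarith, fun b b' hb hb' K => ?_⟩
  have hbR : (2 : ℝ) ≤ b := by exact_mod_cast hb
  have hbR' : (2 : ℝ) ≤ b' := by exact_mod_cast hb'
  have hlb : 0 < Real.log b := Real.log_pos (by linarith)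
  have hlb' : 0 < Real.log b' := Real.log_pos (by linarith)
  induction K with
  | zero =>
    intro L L' k k' s s' hs hs' hK hrel hrel'
    obtain ⟨lb, elb⟩ : ∃ x : ℝ, x = Real.log b := ⟨_, rfl⟩
    obtain ⟨lb', elb'⟩ : ∃ x : ℝ, x = Real.log b' := ⟨_, rfl⟩
    rw [← elb] at hlb
    rw [← elb'] at hlb'
    rw [← elb, ← elb']
    obtain ⟨M, hM⟩ : ∃ x : ℝ, x = min (L * lb) (L' * lb') := ⟨_, rfl⟩
    rw [← hM]
    have hM0 : 0 ≤ M := by rw [hM]; exact le_min (by positivity) (by positivity)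
    obtain ⟨L₁, hL₁⟩ : ∃ n : ℕ, n = ⌊M / lb⌋₊ := ⟨_, rfl⟩
    obtain ⟨L₂, hL₂⟩ : ∃ n : ℕ, n = ⌊M / lb'⌋₊ := ⟨_, rfl⟩
    have a1 : (L₁ : ℝ) * lb ≤ M := by
      rw [← le_div_iff₀ hlb, hL₁]; exact Nat.floor_le (by positivity)
    have a2 : M < L₁ * lb + lb := by
      have := Nat.lt_floor_add_one (M / lb)
      rw [← hL₁, div_lt_iff₀ hlb] at this
      linarith
    have a3 : (L₂ : ℝ) * lb' ≤ M := by
      rw [← le_div_iff₀ hlb', hL₂]; exact Nat.floor_le (by positivity)
    have a4 : M < L₂ * lb' + lb' := by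
      have := Nat.lt_floor_add_one (M / lb')
      rw [← hL₂, div_lt_iff₀ hlb'] at this
      linarith
    have b1 : L₁ ≤ L := by
      have h1 : (L₁ : ℝ) * lb ≤ L * lb := a1.trans (by rw [hM]; exact min_le_left _ _)
      exact_mod_cast le_of_mul_le_mul_right h1 hlb
    have b2 : L₂ ≤ L' := by
      have h1 : (L₂ : ℝ) * lb' ≤ L' * lb' := a3.trans (by rw [hM]; exact min_le_right _ _)
      exact_mod_cast le_of_mul_le_mul_right h1 hlb'
    have c1 : ∀ l, 0 < l → l ≤ L₁ → s l = digit b u l := by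
      intro l hl hl'
      by_contra hcon
      have h1 : (chg b u s L).ncard = 0 := by omega
      rw [Set.ncard_eq_zero (chg_fin b u s L)] at h1
      have h2 : l ∈ chg b u s L := ⟨hl, by omega, hcon⟩
      rw [h1] at h2
      exact h2
    have c2 : ∀ l, 0 < l → l ≤ L₂ → s' l = digit b' v l := by
      intro l hl hl'
      by_contra hcon
      have h1 : (chg b' v s' L').ncard = 0 := by omega
      rw [Set.ncard_eq_zero (chg_fin b' v s' L')] at h1
      have h2 : l ∈ chg b' v s' L' := ⟨hl, by omega, hcon⟩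
      rw [h1] at h2
      exact h2
    have hm := hmain b b' hb hb' L₁ L₂ k k' 0 0 (Nat.zero_le _) (Nat.zero_le _) s s' hs hs' c1 c2
      (hrel.trunc L₁ b1) (hrel'.trunc L₂ b2) (by rw [← elb, ← elb']; linarith)
      (by rw [← elb, ← elb']; linarith)
    rw [← elb, ← elb'] at hm
    have hk0 : (0 : ℝ) ≤ k := Nat.cast_nonneg k
    have hk0' : (0 : ℝ) ≤ k' := Nat.cast_nonneg k'
    obtain ⟨R, hR⟩ : ∃ x : ℝ, x = (k + 1) * lb + (k' + 1) * lb' := ⟨_, rfl⟩
    have hRb : lb + lb' ≤ R := by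
      rw [hR]
      have h1 : 0 ≤ (k : ℝ) * lb := by positivity
      have h2 : 0 ≤ (k' : ℝ) * lb' := by positivity
      linarith
    rw [← hR]
    have hm' : (L₁ : ℝ) * lb ≤ A * R := by
      rw [hR]
      simpa using hm
    rw [zero_add, pow_one]
    nlinarith
  | succ K ih =>
    intro L L' k k' s s' hs hs' hK hrel hrel'
    obtain ⟨lb, elb⟩ : ∃ x : ℝ, x = Real.log b := ⟨_, rfl⟩
    obtain ⟨lb', elb'⟩ : ∃ x : ℝ, x = Real.log b' := ⟨_, rfl⟩
    rw [← elb] at hlb
    rw [← elb'] at hlb'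
    rw [← elb, ← elb']
    obtain ⟨M, hM⟩ : ∃ x : ℝ, x = min (L * lb) (L' * lb') := ⟨_, rfl⟩
    rw [← hM]
    have hM0 : 0 ≤ M := by rw [hM]; exact le_min (by positivity) (by positivity)
    obtain ⟨L₁, hL₁⟩ : ∃ n : ℕ, n = ⌊M / lb⌋₊ := ⟨_, rfl⟩
    obtain ⟨L₂, hL₂⟩ : ∃ n : ℕ, n = ⌊M / lb'⌋₊ := ⟨_, rfl⟩
    have a1 : (L₁ : ℝ) * lb ≤ M := by
      rw [← le_div_iff₀ hlb, hL₁]; exact Nat.floor_le (by positivity)
    have a2 : M < L₁ * lb + lb := by
      have := Nat.lt_floor_add_one (M / lb)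
      rw [← hL₁, div_lt_iff₀ hlb] at this
      linarith
    have a3 : (L₂ : ℝ) * lb' ≤ M := by
      rw [← le_div_iff₀ hlb', hL₂]; exact Nat.floor_le (by positivity)
    have a4 : M < L₂ * lb' + lb' := by
      have := Nat.lt_floor_add_one (M / lb')
      rw [← hL₂, div_lt_iff₀ hlb'] at this
      linarith
    have b1 : L₁ ≤ L := by
      have h1 : (L₁ : ℝ) * lb ≤ L * lb := a1.trans (by rw [hM]; exact min_le_left _ _)
      exact_mod_cast le_of_mul_le_mul_right h1 hlb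
    have b2 : L₂ ≤ L' := by
      have h1 : (L₂ : ℝ) * lb' ≤ L' * lb' := a3.trans (by rw [hM]; exact min_le_right _ _)
      exact_mod_cast le_of_mul_le_mul_right h1 hlb'
    have n1 := Set.ncard_le_ncard (chg_mono b u s b1) (chg_fin b u s L)
    have n2 := Set.ncard_le_ncard (chg_mono b' v s' b2) (chg_fin b' v s' L')
    obtain ⟨t, htL, hst, htn⟩ := chg_last b u s L₁
    obtain ⟨t', htL', hst', htn'⟩ := chg_last b' v s' L₂
    have hm := hmain b b' hb hb' L₁ L₂ k k' t t' htL htL' s s' hs hs' hst hst'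
      (hrel.trunc L₁ b1) (hrel'.trunc L₂ b2) (by rw [← elb, ← elb']; linarith)
      (by rw [← elb, ← elb']; linarith)
    rw [← elb, ← elb'] at hm
    have hk0 : (0 : ℝ) ≤ k := Nat.cast_nonneg k
    have hk0' : (0 : ℝ) ≤ k' := Nat.cast_nonneg k'
    obtain ⟨R, hR⟩ : ∃ x : ℝ, x = (k + 1) * lb + (k' + 1) * lb' := ⟨_, rfl⟩
    have hRb : lb + lb' ≤ R := by
      rw [hR]
      have h1 : 0 ≤ (k : ℝ) * lb := by positivity
      have h2 : 0 ≤ (k' : ℝ) * lb' := by positivity
      linarith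
    rw [← hR]
    obtain ⟨W, hW⟩ : ∃ x : ℝ, x = (6 * A) ^ (K + 1) := ⟨_, rfl⟩
    have hW1 : 1 ≤ W := by rw [hW]; exact one_le_pow₀ (by linarith)
    have hR0 : 0 < R := by linarith
    have hWR : R ≤ W * R := by nlinarith
    have hm' : (L₁ : ℝ) * lb ≤ A * (R + t * lb + t' * lb') := by
      have e : (k + 1 + t) * lb + (k' + 1 + t') * lb' = R + t * lb + t' * lb' := by rw [hR]; ring
      rw [← e]
      exact hm
    -- the last changes
    have hlast : (t : ℝ) * lb ≤ 2 * (W * R) ∧ (t' : ℝ) * lb' ≤ 2 * (W * R) := by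
      rcases Nat.eq_zero_or_pos t with h0 | hpos
      · rcases Nat.eq_zero_or_pos t' with h0' | hpos'
        · rw [h0, h0']
          constructor <;> (simp only [Nat.cast_zero, zero_mul]; positivity)
        · -- only `t'`
          have h3 := ih L₁ (t' - 1) k k' s s' hs hs' (by have := htn' hpos'; omega)
            (hrel.trunc L₁ b1) (hrel'.trunc (t' - 1) (by omega))
          rw [← elb, ← elb', ← hR, ← hW] at h3
          have h5 : ((t' - 1 : ℕ) : ℝ) = (t' : ℝ) - 1 := by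
            rw [Nat.cast_sub hpos']; push_cast; ring
          rw [h5] at h3
          have h6 : (t' : ℝ) * lb' ≤ L₂ * lb' :=
            mul_le_mul_of_nonneg_right (by exact_mod_cast htL') hlb'.le
          have h7 : (t' : ℝ) * lb' - lb' - lb ≤ min (L₁ * lb) (((t' : ℝ) - 1) * lb') :=
            le_min (by linarith) (by linarith)
          refine ⟨?_, by linarith⟩
          rw [h0]
          simp only [Nat.cast_zero, zero_mul]
          positivity
      · by_cases hcmp : (t' : ℝ) * lb' ≤ t * lb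
        · have h3 := ih (t - 1) L₂ k k' s s' hs hs' (by have := htn hpos; omega)
            (hrel.trunc (t - 1) (by omega)) (hrel'.trunc L₂ b2)
          rw [← elb, ← elb', ← hR, ← hW] at h3
          have h5 : ((t - 1 : ℕ) : ℝ) = (t : ℝ) - 1 := by
            rw [Nat.cast_sub hpos]; push_cast; ring
          rw [h5] at h3
          have h6 : (t : ℝ) * lb ≤ L₁ * lb :=
            mul_le_mul_of_nonneg_right (by exact_mod_cast htL) hlb.le
          have h7 : (t : ℝ) * lb - lb - lb' ≤ min (((t : ℝ) - 1) * lb) (L₂ * lb') :=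
            le_min (by linarith) (by linarith)
          have h8 : (t : ℝ) * lb ≤ 2 * (W * R) := by linarith
          exact ⟨h8, hcmp.trans h8⟩
        · push Not at hcmp
          have hpos' : 0 < t' := by
            rcases Nat.eq_zero_or_pos t' with h0' | hpos'
            · exfalso
              rw [h0'] at hcmp
              simp only [Nat.cast_zero, zero_mul] at hcmp
              have : (0 : ℝ) ≤ t * lb := by positivity
              linarith
            · exact hpos'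
          have h3 := ih L₁ (t' - 1) k k' s s' hs hs' (by have := htn' hpos'; omega)
            (hrel.trunc L₁ b1) (hrel'.trunc (t' - 1) (by omega))
          rw [← elb, ← elb', ← hR, ← hW] at h3
          have h5 : ((t' - 1 : ℕ) : ℝ) = (t' : ℝ) - 1 := by
            rw [Nat.cast_sub hpos']; push_cast; ring
          rw [h5] at h3
          have h6 : (t' : ℝ) * lb' ≤ L₂ * lb' :=
            mul_le_mul_of_nonneg_right (by exact_mod_cast htL') hlb'.le
          have h7 : (t' : ℝ) * lb' - lb' - lb ≤ min (L₁ * lb) (((t' : ℝ) - 1) * lb') :=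
            le_min (by linarith) (by linarith)
          have h8 : (t' : ℝ) * lb' ≤ 2 * (W * R) := by linarith
          exact ⟨hcmp.le.trans h8, h8⟩
    have h9 : A * (R + t * lb + t' * lb') ≤ A * (5 * (W * R)) :=
      mul_le_mul_of_nonneg_left (by linarith [hlast.1, hlast.2]) (by linarith)
    have h10 : (6 * A) ^ (K + 1 + 1) * R = 6 * (A * (W * R)) := by
      rw [hW]; ring
    rw [h10]
    have h11 : W * R ≤ A * (W * R) := by
      have : 0 ≤ W * R := by positivity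
      nlinarith
    linarith

end Pool.Agent.R473.JC
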