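import Pool.Agent.R473.JC.Final

/-!
# Multiplicatively independent monomials in two numbers
-/

set_option autoImplicit false

namespace Pool.Agent.R473.JC

open Finset Polynomial Module Pool.Agent.R356 Pool.Agent.TH456.TM

lemma alg_mon (u v x : ℝ) (w y : ℝ) (hw : w ∈ Algebra.adjoin ℤ ({u, v} : Set ℝ))
    (hy : y ∈ Algebra.adjoin ℤ ({u, v} : Set ℝ)) (hw0 : w ≠ 0) (m : ℕ) (hm : m ≠ 0)
    (h : w * x ^ m = y) : IsAlgebraic (Algebra.adjoin ℤ ({u, v} : Set ℝ)) x := by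
  refine alg_of_eq _ _ x (C (⟨w, hw⟩ : Algebra.adjoin ℤ ({u, v} : Set ℝ)) * X ^ m) ?_ y hy ?_
  · rw [natDegree_C_mul_X_pow]
    · exact hm
    · intro h0
      exact hw0 (congrArg (fun w : Algebra.adjoin ℤ ({u, v} : Set ℝ) => (w : ℝ)) h0)
  · simp only [map_mul, aeval_C, map_pow, aeval_X]
    exact h

lemma alg_two (u v x : ℝ) (hu : u ≠ 0) (hv : v ≠ 0) (c a n : ℤ) (hn : n ≠ 0) (hx : x ≠ 0)
    (h : u ^ c = v ^ a * x ^ n) : IsAlgebraic (Algebra.adjoin ℤ ({u, v} : Set ℝ)) x := by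
  have hmu : ∀ k : ℕ, u ^ k ∈ Algebra.adjoin ℤ ({u, v} : Set ℝ) := fun k =>
    Subalgebra.pow_mem _ (mem_u u v) k
  have hmv : ∀ k : ℕ, v ^ k ∈ Algebra.adjoin ℤ ({u, v} : Set ℝ) := fun k =>
    Subalgebra.pow_mem _ (mem_v u v) k
  have key : ∀ (c₁ c₂ a₁ a₂ : ℕ), c = c₁ - c₂ → a = a₁ - a₂ →
      u ^ c₁ * v ^ a₂ = (u ^ c₂ * v ^ a₁) * x ^ n := by
    intro c₁ c₂ a₁ a₂ hc ha
    rw [hc, ha, zpow_sub₀ hu, zpow_sub₀ hv, zpow_natCast, zpow_natCast, zpow_natCast,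
      zpow_natCast] at h
    field_simp at h
    linarith
  have hc : c = ((c.toNat : ℕ) : ℤ) - (((-c).toNat : ℕ) : ℤ) := (Int.toNat_sub_toNat_neg c).symm
  have ha : a = ((a.toNat : ℕ) : ℤ) - (((-a).toNat : ℕ) : ℤ) := (Int.toNat_sub_toNat_neg a).symm
  have hk := key _ _ _ _ hc ha
  rcases lt_or_gt_of_ne hn with hneg | hpos
  · obtain ⟨m, hm⟩ : ∃ m : ℕ, n = -(m : ℤ) := ⟨n.natAbs, by omega⟩
    have hm0 : m ≠ 0 := by omega
    rw [hm, zpow_neg, zpow_natCast] at hk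
    refine alg_mon u v x (u ^ c.toNat * v ^ (-a).toNat) (u ^ (-c).toNat * v ^ a.toNat)
      (Subalgebra.mul_mem _ (hmu _) (hmv _)) (Subalgebra.mul_mem _ (hmu _) (hmv _))
      (mul_ne_zero (pow_ne_zero _ hu) (pow_ne_zero _ hv)) m hm0 ?_
    rw [hk, mul_assoc, inv_mul_cancel₀ (pow_ne_zero _ hx), mul_one]
  · obtain ⟨m, hm⟩ : ∃ m : ℕ, n = (m : ℤ) := ⟨n.natAbs, by omega⟩
    have hm0 : m ≠ 0 := by omega
    rw [hm, zpow_natCast] at hk
    exact alg_mon u v x (u ^ (-c).toNat * v ^ a.toNat) (u ^ c.toNat * v ^ (-a).toNat)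
      (Subalgebra.mul_mem _ (hmu _) (hmv _)) (Subalgebra.mul_mem _ (hmu _) (hmv _))
      (mul_ne_zero (pow_ne_zero _ hu) (pow_ne_zero _ hv)) m hm0 hk.symm

/-- **Monomials.** -/
theorem joint_monomials (x : ℝ) (hx : MeasT (x : ℂ)) (z : ℝ) (hz : z ≠ 0) (a b c d : ℤ)
    (h : a * d - b * c ≠ 0) : JointR (z ^ a * x ^ b) (z ^ c * x ^ d) := by
  have hx0 : x ≠ 0 := by
    intro h0
    have h1 := transcendental_of_measT hx
    apply h1
    rw [h0]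
    simpa using isAlgebraic_zero
  refine jointR_of_alg x hx _ _ (alg_two _ _ x (mul_ne_zero (zpow_ne_zero _ hz) (zpow_ne_zero _ hx0))
    (mul_ne_zero (zpow_ne_zero _ hz) (zpow_ne_zero _ hx0)) c a (b * c - a * d) (by
      intro h0
      apply h
      linarith) hx0 ?_)
  rw [mul_zpow, mul_zpow, ← zpow_mul, ← zpow_mul, ← zpow_mul, ← zpow_mul, mul_assoc, ← zpow_add₀ hx0,
    mul_comm c a]
  congr 2
  ring

end Pool.Agent.R473.JC
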