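import Pool.Agent.R473.JC.Poly

/-!
# Size of the integer polynomial given by a relation for the digits of one number
-/

set_option autoImplicit false

namespace Pool.Agent.R473.JC

open Finset Polynomial Module Pool.Agent.W472.AC Pool.Agent.R473.EC Pool.Agent.TH629.ExpDig
  Pool.Agent.R356

lemma pow_sub_le (v w : ℝ) (hv0 : 0 ≤ v) (hv1 : v ≤ 1) (hw0 : 0 ≤ w) (hw1 : w ≤ 1) (j : ℕ) :
    |v ^ j - w ^ j| ≤ j * |v - w| := by
  induction j with
  | zero => simp
  | succ j ih =>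
    have h1 : v ^ (j + 1) - w ^ (j + 1) = v * (v ^ j - w ^ j) + (v - w) * w ^ j := by ring
    rw [h1]
    have h2 : |v * (v ^ j - w ^ j)| ≤ j * |v - w| := by
      rw [abs_mul, abs_of_nonneg hv0]
      calc v * |v ^ j - w ^ j| ≤ 1 * |v ^ j - w ^ j| :=
            mul_le_mul_of_nonneg_right hv1 (abs_nonneg _)
        _ ≤ j * |v - w| := by rw [one_mul]; exact ih
    have h3 : |(v - w) * w ^ j| ≤ |v - w| := by
      rw [abs_mul, abs_of_nonneg (pow_nonneg hw0 j)]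
      calc |v - w| * w ^ j ≤ |v - w| * 1 :=
            mul_le_mul_of_nonneg_left (pow_le_one₀ hw0 hw1) (abs_nonneg _)
        _ = _ := mul_one _
    push_cast
    calc |v * (v ^ j - w ^ j) + (v - w) * w ^ j| ≤ |v * (v ^ j - w ^ j)| + |(v - w) * w ^ j| :=
          abs_add_le _ _
      _ ≤ j * |v - w| + |v - w| := add_le_add h2 h3
      _ = _ := by ring

/-- the raw form -/
theorem poly_raw (u : ℝ) (r : ℕ) (b : ℕ) (hb : 2 ≤ b) (L k t : ℕ) (htL : t ≤ L) (s : ℕ → ℤ)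
    (hs : ∀ l, 0 ≤ s l ∧ s l < b) (hst : ∀ l, t < l → l ≤ L → s l = digit b u l)
    (hrel : ARel s r L k) (B H : ℕ) (hB : B = (b * (L + 1)) ^ r)
    (hH : H = ((r + 1) * (k + k + 1) * B) ^ (2 * (r + 1))) :
    ∃ P : ℤ[X], P ≠ 0 ∧ P.natDegree ≤ r ∧
      (∀ i, |((P.coeff i : ℤ) : ℝ)| ≤
        (r + 1) * (2 * H * (b : ℝ) ^ (k + k)) * ((b : ℝ) ^ t * (|u| + 3)) ^ r) ∧
      |(aeval u P : ℝ)| ≤ ((b : ℝ) ^ t) ^ r * ((b : ℝ) ^ (k + k) *
        ((1 / b) ^ L * (2 * (r + 1) * H * ((k + k + 1) * B + B)))) := by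
  obtain ⟨h, hh0, hhk, hX⟩ := hrel
  have hb1 : 1 ≤ b := by omega
  have hbR : (1 : ℝ) ≤ b := by exact_mod_cast hb1
  have hbL1 : 1 ≤ b * (L + 1) := Nat.mul_pos (by omega) (by omega)
  have hB1 : 1 ≤ B := by rw [hB]; exact Nat.one_le_pow _ _ hbL1
  have hz : (0 : ℝ) ≤ (1 / (b : ℝ)) ^ L := by positivity
  -- the shift
  obtain ⟨q, hq⟩ : ∃ q : ℤ, ev (1 / b) (sZ s L) - ev (1 / b) (DZ b u L) = q / (b : ℝ) ^ t := by
    rw [← sZ_digit]
    exact ev_diff s (digit b u) b hb1 t L htL hst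
  have hdig : ∀ l, 0 ≤ digit b u l ∧ digit b u l < b := fun l =>
    ⟨digit_nonneg _ _ hb1 _, by
      unfold digit
      exact Int.emod_lt_of_pos _ (by exact_mod_cast hb1)⟩
  have hev1 : 0 ≤ ev (1 / (b : ℝ)) (sZ s L) ∧ ev (1 / (b : ℝ)) (sZ s L) ≤ 1 - (1 / b) ^ L :=
    ev_sZ_bounds s b hb1 (fun l => (hs l).1) (fun l => (hs l).2) L
  have hev2 : 0 ≤ ev (1 / (b : ℝ)) (DZ b u L) ∧ ev (1 / (b : ℝ)) (DZ b u L) ≤ 1 - (1 / b) ^ L := by
    rw [← sZ_digit]
    exact ev_sZ_bounds _ b hb1 (fun l => (hdig l).1) (fun l => (hdig l).2) L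
  have hbt : (0 : ℝ) < (b : ℝ) ^ t := by positivity
  have hqb : |q| ≤ ((b ^ t : ℕ) : ℤ) := by
    have h1 : |(q : ℝ) / (b : ℝ) ^ t| ≤ 1 := by
      rw [← hq, abs_le]
      constructor <;> linarith [hev1.1, hev1.2, hev2.1, hev2.2]
    rw [abs_div, abs_of_pos hbt, div_le_one hbt] at h1
    have h2 : ((|q| : ℤ) : ℝ) ≤ ((b ^ t : ℕ) : ℝ) := by push_cast; exact h1
    exact_mod_cast h2
  have hcl := ev_DZ_close u b hb1 L
  obtain ⟨v, hv⟩ : ∃ v : ℝ, v = Int.fract u + (q : ℝ) / ((b ^ t : ℕ) : ℝ) := ⟨_, rfl⟩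
  have hkey : v - ev (1 / (b : ℝ)) (sZ s L) = Int.fract u - ev (1 / (b : ℝ)) (DZ b u L) := by
    rw [hv]
    push_cast
    linarith
  obtain ⟨a, ha0, haM, haS⟩ := exists_form r k k L B (2 * (r + 1)) b hb hB1
    (fun j => v ^ (j : ℕ)) (B : ℝ) (fun j => sZ s L ^ (j : ℕ))
    (fun j i => by
      have hj : (j : ℕ) ≤ r := by have := j.2; omega
      have h0 : ∀ i, 0 ≤ (sZ s L ^ (j : ℕ)).coeff i := by
        have h1 := prod_coeff_nonneg (fun _ : Fin 1 => sZ s L)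
          (fun _ => sZ_coeff_nonneg s (fun l => (hs l).1) L) (fun _ => (j : ℕ)) Finset.univ
        simpa using h1
      rw [abs_of_nonneg (h0 i)]
      refine (coeff_le_eval_one _ h0 i).trans ?_
      rw [eval_pow]
      have h3 := sZ_eval_one s b (fun l => (hs l).1) (fun l => (hs l).2) L
      have h2 : (1 : ℤ) ≤ (b : ℤ) * (L + 1) := by exact_mod_cast hbL1
      rw [hB]
      push_cast
      calc (eval 1 (sZ s L)) ^ (j : ℕ) ≤ ((b : ℤ) * (L + 1)) ^ (j : ℕ) :=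
            pow_le_pow_left₀ h3.1 h3.2 _
        _ ≤ ((b : ℤ) * (L + 1)) ^ r := pow_le_pow_right₀ h2 hj)
    (fun j => by
      have hj : (j : ℕ) ≤ r := by have := j.2; omega
      have hev : ev (1 / (b : ℝ)) (sZ s L ^ (j : ℕ)) = ev (1 / (b : ℝ)) (sZ s L) ^ (j : ℕ) := by
        unfold ev
        rw [Polynomial.map_pow, eval_pow]
      rw [hev]
      refine (pow_sub_le v _ ?_ ?_ hev1.1 ?_ j).trans ?_
      · have h2 := hcl.1
        have h3 := hev1.1
        linarith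
      · have h2 := hcl.2
        have h3 := hev1.2
        linarith
      · have h3 := hev1.2
        linarith
      · rw [hkey, abs_of_nonneg hcl.1]
        refine mul_le_mul ?_ hcl.2 hcl.1 (Nat.cast_nonneg _)
        have e2 : r < 2 ^ r := Nat.lt_two_pow_self
        have e3 : 2 ^ r ≤ B := by
          rw [hB]
          exact Nat.pow_le_pow_left (by nlinarith) r
        exact_mod_cast (by omega : (j : ℕ) ≤ B))
    h hh0 hhk (by
      have e : ∑ j, h j * (sZ s L ^ (j : ℕ)).map (Int.castRingHom ℚ) =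
          ∑ j, h j * sQ s L ^ (j : ℕ) := by
        refine Finset.sum_congr rfl fun j _ => ?_
        rw [Polynomial.map_pow, sQ_eq]
      rw [e]; exact hX)
    (by nlinarith) H hH
  obtain ⟨P, hP0, hPd, hPc, hPv⟩ := shifted_poly u r a ha0 _ haM (b ^ t)
    (Nat.one_le_pow _ _ (by omega)) q hqb
  refine ⟨P, hP0, hPd, fun i => ?_, ?_⟩
  · refine (hPc i).trans (le_of_eq ?_)
    push_cast
    ring
  · rw [hPv, ← hv, abs_mul, abs_of_nonneg (by positivity)]
    push_cast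
    exact mul_le_mul_of_nonneg_left haS (by positivity)

/-- **The integer polynomial.** -/
theorem poly_of_rel (u : ℝ) (r : ℕ) : ∃ A : ℝ, 1 ≤ A ∧ ∀ b : ℕ, 2 ≤ b → ∀ L k t : ℕ, t ≤ L →
    ∀ s : ℕ → ℤ, (∀ l, 0 ≤ s l ∧ s l < b) → (∀ l, t < l → l ≤ L → s l = digit b u l) →
    ARel s r L k → ∃ P : ℤ[X], P ≠ 0 ∧ P.natDegree ≤ r ∧
      (∀ i, |((P.coeff i : ℤ) : ℝ)| ≤
        Real.exp (A * ((k + 1 + t) * Real.log b + Real.log (L + 1)))) ∧
      |(aeval u P : ℝ)| ≤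
        Real.exp (A * ((k + 1 + t) * Real.log b + Real.log (L + 1)) - L * Real.log b) := by
  have hr0 : (0 : ℝ) ≤ r := Nat.cast_nonneg r
  have hu0 := abs_nonneg u
  obtain ⟨lr, hlr⟩ : ∃ x : ℝ, x = Real.log (r + 1) := ⟨_, rfl⟩
  obtain ⟨lu, hlu⟩ : ∃ x : ℝ, x = Real.log (|u| + 3) := ⟨_, rfl⟩
  have hlr0 : 0 ≤ lr := by rw [hlr]; exact Real.log_nonneg (by linarith)
  have hlu0 : 0 ≤ lu := by rw [hlu]; exact Real.log_nonneg (by linarith)
  obtain ⟨κ, hκ⟩ : ∃ κ : ℝ, κ = 2 * ((r : ℝ) + 1) := ⟨_, rfl⟩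
  have hκ0 : 0 ≤ κ := by rw [hκ]; positivity
  obtain ⟨c₀, hc₀⟩ : ∃ x : ℝ, x = 2 * (lr + 2 + κ * lr + r * lu) := ⟨_, rfl⟩
  have hc₀0 : 0 ≤ c₀ := by rw [hc₀]; positivity
  refine ⟨c₀ + (κ * r + r) + (κ * (r + 1) + r + 2) + 2 + r, by nlinarith, ?_⟩
  intro b hb L k t htL s hs hst hrel
  obtain ⟨A, hA⟩ : ∃ A : ℝ, A = c₀ + (κ * r + r) + (κ * (r + 1) + r + 2) + 2 + r := ⟨_, rfl⟩
  rw [← hA]
  have hbR : (2 : ℝ) ≤ b := by exact_mod_cast hb
  have hb0 : (0 : ℝ) < b := by linarith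
  obtain ⟨lb, hlbd⟩ : ∃ x : ℝ, x = Real.log b := ⟨_, rfl⟩
  obtain ⟨lL, hlLd⟩ : ∃ x : ℝ, x = Real.log ((L : ℝ) + 1) := ⟨_, rfl⟩
  rw [← hlbd, ← hlLd]
  have hlb : 1 / 2 < lb := by
    rw [hlbd]
    have h1 := Real.log_le_log (by norm_num) hbR
    have h2 := Real.log_two_gt_d9
    linarith
  have hlL : 0 ≤ lL := by
    rw [hlLd]
    exact Real.log_nonneg (by linarith [(Nat.cast_nonneg L : (0 : ℝ) ≤ L)])
  have hbe : (b : ℝ) = Real.exp lb := by rw [hlbd, Real.exp_log hb0]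
  have hLe : (L : ℝ) + 1 = Real.exp lL := by rw [hlLd, Real.exp_log (by positivity)]
  have hre : (r : ℝ) + 1 = Real.exp lr := by rw [hlr, Real.exp_log (by positivity)]
  have hue : |u| + 3 = Real.exp lu := by rw [hlu, Real.exp_log (by positivity)]
  have h2e : (2 : ℝ) ≤ Real.exp 1 := by
    have := Real.add_one_le_exp (1 : ℝ)
    linarith
  have hk0 : (0 : ℝ) ≤ k := Nat.cast_nonneg k
  have ht0 : (0 : ℝ) ≤ t := Nat.cast_nonneg t
  -- the atoms
  obtain ⟨kb, hkb⟩ : ∃ x : ℝ, x = k * lb := ⟨_, rfl⟩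
  obtain ⟨tb, htb⟩ : ∃ x : ℝ, x = t * lb := ⟨_, rfl⟩
  have hkb0 : 0 ≤ kb := by rw [hkb]; positivity
  have htb0 : 0 ≤ tb := by rw [htb]; positivity
  obtain ⟨Λ, hΛ⟩ : ∃ x : ℝ, x = (k + 1 + t) * lb + lL := ⟨_, rfl⟩
  have hΛ' : Λ = kb + lb + tb + lL := by rw [hΛ, hkb, htb]; ring
  rw [← hΛ]
  have hΛ0 : 0 ≤ Λ := by rw [hΛ']; linarith
  have m1 : c₀ * lb ≤ c₀ * Λ := mul_le_mul_of_nonneg_left (by rw [hΛ']; linarith) hc₀0
  have m2 : (κ * r + r) * lb ≤ (κ * r + r) * Λ :=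
    mul_le_mul_of_nonneg_left (by rw [hΛ']; linarith) (by positivity)
  have m3 : (κ * (r + 1) + r + 2) * lL ≤ (κ * (r + 1) + r + 2) * Λ :=
    mul_le_mul_of_nonneg_left (by rw [hΛ']; linarith) (by positivity)
  have m4 : 2 * kb ≤ 2 * Λ := mul_le_mul_of_nonneg_left (by rw [hΛ']; linarith) (by norm_num)
  have m5 : r * tb ≤ r * Λ := mul_le_mul_of_nonneg_left (by rw [hΛ']; linarith) hr0
  have m0 : lr + 2 + κ * lr + r * lu ≤ c₀ * lb := by
    rw [hc₀]
    have : 0 ≤ lr + 2 + κ * lr + r * lu := by positivity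
    nlinarith
  have hAΛ : A * Λ = c₀ * Λ + (κ * r + r) * Λ + (κ * (r + 1) + r + 2) * Λ + 2 * Λ + r * Λ := by
    rw [hA]; ring
  by_cases hKL : k + k + 1 ≤ L
  · obtain ⟨B, hB⟩ : ∃ B : ℕ, B = (b * (L + 1)) ^ r := ⟨_, rfl⟩
    obtain ⟨H, hH⟩ : ∃ H : ℕ, H = ((r + 1) * (k + k + 1) * B) ^ (2 * (r + 1)) := ⟨_, rfl⟩
    obtain ⟨P, hP0, hPd, hPc, hPv⟩ := poly_raw u r b hb L k t htL s hs hst hrel B H hB hH
    have hk1 : ((k : ℝ) + k + 1) ≤ Real.exp lL := by
      rw [← hLe]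
      have : ((k + k + 1 : ℕ) : ℝ) ≤ L := by exact_mod_cast hKL
      push_cast at this
      linarith
    have hBe : (B : ℝ) = Real.exp (r * (lb + lL)) := by
      rw [hB]
      push_cast
      rw [hLe, hbe, ← Real.exp_add, ← Real.exp_nat_mul]
    have hHe : (H : ℝ) ≤ Real.exp (κ * (lr + lL + r * (lb + lL))) := by
      rw [hH]
      push_cast
      rw [hBe, hre, hκ]
      calc (Real.exp lr * (k + k + 1) * Real.exp (r * (lb + lL))) ^ (2 * (r + 1))
          ≤ (Real.exp lr * Real.exp lL * Real.exp (r * (lb + lL))) ^ (2 * (r + 1)) := by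
            gcongr
        _ = _ := by
            rw [← Real.exp_add, ← Real.exp_add, ← Real.exp_nat_mul]
            push_cast
            ring_nf
    refine ⟨P, hP0, hPd, fun i => (hPc i).trans ?_, hPv.trans ?_⟩
    · calc ((r : ℝ) + 1) * (2 * H * (b : ℝ) ^ (k + k)) * ((b : ℝ) ^ t * (|u| + 3)) ^ r
          ≤ Real.exp lr * (Real.exp 1 * Real.exp (κ * (lr + lL + r * (lb + lL))) *
              (Real.exp lb) ^ (k + k)) * ((Real.exp lb) ^ t * Real.exp lu) ^ r := by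
            rw [← hre, ← hue, ← hbe]
            gcongr
        _ = Real.exp (lr + (1 + κ * (lr + lL + r * (lb + lL)) + (k + k) * lb) +
              r * (t * lb + lu)) := by
            simp only [← Real.exp_nat_mul, ← Real.exp_add]
            push_cast
            ring_nf
        _ ≤ Real.exp (A * Λ) := by
            rw [Real.exp_le_exp, hAΛ]
            have e : lr + (1 + κ * (lr + lL + r * (lb + lL)) + (k + k) * lb) +
                r * (t * lb + lu) = (lr + 1 + κ * lr + r * lu) + κ * r * lb + κ * (r + 1) * lL +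
                2 * kb + r * tb := by rw [hkb, htb]; ring
            rw [e]
            have e2 : 0 ≤ (r : ℝ) * lb := by positivity
            have e3 : 0 ≤ ((r : ℝ) + 2) * lL := by positivity
            linarith
    · calc ((b : ℝ) ^ t) ^ r * ((b : ℝ) ^ (k + k) *
            ((1 / b) ^ L * (2 * (r + 1) * H * ((k + k + 1) * B + B))))
          ≤ ((Real.exp lb) ^ t) ^ r * ((Real.exp lb) ^ (k + k) *
            ((Real.exp (-lb)) ^ L * (Real.exp 1 * Real.exp lr *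
              Real.exp (κ * (lr + lL + r * (lb + lL))) *
              (Real.exp lL * Real.exp (r * (lb + lL)) * Real.exp 1)))) := by
            rw [Real.exp_neg, ← hre, ← hbe, ← hBe, one_div]
            have h3 : ((k : ℝ) + k + 1) * B + B ≤ Real.exp lL * B * Real.exp 1 := by
              have hB0 : (0 : ℝ) ≤ B := Nat.cast_nonneg _
              have h4 : ((k : ℝ) + k + 1) + 1 ≤ Real.exp lL * Real.exp 1 := by
                have h5 : 1 ≤ Real.exp lL := Real.one_le_exp hlL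
                nlinarith
              calc ((k : ℝ) + k + 1) * B + B = (((k : ℝ) + k + 1) + 1) * B := by ring
                _ ≤ (Real.exp lL * Real.exp 1) * B := mul_le_mul_of_nonneg_right h4 hB0
                _ = _ := by ring
            gcongr
        _ = Real.exp (r * (t * lb) + ((k + k) * lb + (L * (-lb) + (1 + lr +
              κ * (lr + lL + r * (lb + lL)) + (lL + r * (lb + lL) + 1))))) := by
            simp only [← Real.exp_nat_mul, ← Real.exp_add]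
            push_cast
            ring_nf
        _ ≤ Real.exp (A * Λ - L * lb) := by
            rw [Real.exp_le_exp, hAΛ]
            have e : r * (t * lb) + ((k + k) * lb + (L * (-lb) + (1 + lr +
                κ * (lr + lL + r * (lb + lL)) + (lL + r * (lb + lL) + 1)))) =
                (lr + 2 + κ * lr) + (κ * r + r) * lb + (κ * (r + 1) + r + 1) * lL +
                2 * kb + r * tb - L * lb := by rw [hkb, htb]; ring
            rw [e]
            have e2 : 0 ≤ (r : ℝ) * lu := by positivity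
            linarith
  · push Not at hKL
    refine ⟨1, one_ne_zero, by simp, fun i => ?_, ?_⟩
    · have h1 : |(((1 : ℤ[X]).coeff i : ℤ) : ℝ)| ≤ 1 := by
        rw [coeff_one]
        split_ifs <;> simp
      refine h1.trans (Real.one_le_exp ?_)
      rw [hA]
      positivity
    · rw [map_one, abs_one]
      refine Real.one_le_exp ?_
      have h1 : (L : ℝ) * lb ≤ 2 * kb := by
        rw [hkb]
        have h2 : (L : ℝ) ≤ 2 * k := by
          have : L ≤ 2 * k := by omega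
          exact_mod_cast this
        nlinarith
      rw [hAΛ]
      have h3 : 0 ≤ c₀ * Λ + (κ * r + r) * Λ + (κ * (r + 1) + r + 2) * Λ + r * Λ := by positivity
      linarith

end Pool.Agent.R473.JC
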