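import Pool.Agent.R473.JC.Pairs

/-!
# The joint algebraic complexity of the digits of two numbers
-/

set_option autoImplicit false

namespace Pool.Agent.R473.JC

open Finset Polynomial Module Pool.Agent.R356 Pool.Agent.TH456.TM

/-- the polynomial `s_1 X + s_2 X^2 + ⋯ + s_L X^L` -/
noncomputable def seqPoly (s : ℕ → ℤ) (L : ℕ) : ℚ[X] := ∑ l ∈ Icc 1 L, C (s l : ℚ) * X ^ l

/-- the `i`-th digit of `x` after the point in base `b` -/
noncomputable def digit (b : ℕ) (x : ℝ) (i : ℕ) : ℤ := ⌊x * (b : ℝ) ^ i⌋ % (b : ℤ)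

/-- `s` is a sequence of base `b` digits, and among the places `1, …, L` at most `K` are such that
`s_l` is not the `l`-th digit of `x` -/
def Near (b : ℕ) (x : ℝ) (K L : ℕ) (s : ℕ → ℤ) : Prop :=
  (∀ l, 0 ≤ s l ∧ s l < b) ∧ {l : ℕ | 1 ≤ l ∧ l ≤ L ∧ s l ≠ digit b x l}.ncard ≤ K

/-- there is a nonzero polynomial `P(X, Y)` over `ℚ` of degree `≤ r` in `Y` and `≤ k` in `X` such
that `P(X, S(X))` is divisible by `X^(L+1)` -/
def AlgRelation (s : ℕ → ℤ) (r L k : ℕ) : Prop :=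
  ∃ P : ℚ[X][X], P ≠ 0 ∧ P.natDegree ≤ r ∧ (∀ j, (P.coeff j).natDegree ≤ k) ∧
    X ^ (L + 1) ∣ P.eval (seqPoly s L)

/-- the `K`-error algebraic complexity of degree `r` of the first `L` digits of `x` in base `b` -/
noncomputable def complexity (b : ℕ) (x : ℝ) (r K L : ℕ) : ℕ :=
  sInf {k : ℕ | ∃ s, Near b x K L s ∧ AlgRelation s r L k}

lemma arel_of_algRelation (s : ℕ → ℤ) (r L k : ℕ) (h : AlgRelation s r L k) : ARel s r L k := by
  obtain ⟨P, hP0, hPr, hPk, hX⟩ := h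
  refine ⟨fun j => P.coeff j, ?_, fun j => hPk j, ?_⟩
  · intro h0
    apply hP0
    ext1 j
    by_cases hj : j < r + 1
    · have := congrFun h0 ⟨j, hj⟩
      simpa using this
    · rw [coeff_eq_zero_of_natDegree_lt (by omega), coeff_zero]
  · rw [eval_eq_sum_range' (show P.natDegree < r + 1 by omega), Finset.sum_range] at hX
    exact hX

lemma complexity_mem (b : ℕ) (hb : 2 ≤ b) (x : ℝ) (r K L : ℕ) :
    ∃ s, Near b x K L s ∧ AlgRelation s r L (complexity b x r K L) := by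
  refine Nat.sInf_mem (s := {k : ℕ | ∃ s, Near b x K L s ∧ AlgRelation s r L k})
    ⟨L + 1, digit b x, ⟨fun l => ⟨?_, ?_⟩, ?_⟩, C (X ^ (L + 1)), ?_, ?_, ?_, ?_⟩
  · unfold digit
    exact Int.emod_nonneg _ (by exact_mod_cast (by omega : b ≠ 0))
  · unfold digit
    exact Int.emod_lt_of_pos _ (by exact_mod_cast (by omega : 0 < b))
  · simp
  · rw [Ne, C_eq_zero]
    exact pow_ne_zero _ X_ne_zero
  · simp
  · intro j
    rw [coeff_C]
    split_ifs <;> simp
  · rw [eval_C]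

lemma complexity_le (b : ℕ) (hb : 2 ≤ b) (x : ℝ) (r K L : ℕ) : complexity b x r K L ≤ L + 1 := by
  refine Nat.sInf_le ⟨digit b x, ⟨fun l => ⟨?_, ?_⟩, ?_⟩, C (X ^ (L + 1)), ?_, ?_, ?_, ?_⟩
  · unfold digit
    exact Int.emod_nonneg _ (by exact_mod_cast (by omega : b ≠ 0))
  · unfold digit
    exact Int.emod_lt_of_pos _ (by exact_mod_cast (by omega : 0 < b))
  · simp
  · rw [Ne, C_eq_zero]
    exact pow_ne_zero _ X_ne_zero
  · simp
  · intro j
    rw [coeff_C]
    split_ifs <;> simp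
  · rw [eval_C]

/-- **Two numbers.** -/
theorem pair (u v : ℝ) (huv : JointR u v) (r : ℕ) : ∃ A : ℝ, 1 ≤ A ∧
    ∀ b b' : ℕ, 2 ≤ b → 2 ≤ b' → ∀ K K' L L' : ℕ,
      min (L * Real.log b) (L' * Real.log b') ≤
        A ^ (K + K' + 1) * ((complexity b u r K L + 1) * Real.log b +
          (complexity b' v r K' L' + 1) * Real.log b') := by
  obtain ⟨A, hA, h⟩ := joint_errors u v huv r
  refine ⟨A, hA, fun b b' hb hb' K K' L L' => ?_⟩
  obtain ⟨s, hs, hrel⟩ := complexity_mem b hb u r K L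
  obtain ⟨s', hs', hrel'⟩ := complexity_mem b' hb' v r K' L'
  exact h b b' hb hb' (K + K') L L' _ _ s s' hs.1 hs'.1 (add_le_add hs.2 hs'.2)
    (arel_of_algRelation _ _ _ _ hrel) (arel_of_algRelation _ _ _ _ hrel')

/-- **Finite families.** -/
theorem family {ι : Type} [Finite ι] (x : ι → ℝ) (hx : ∀ i j, i ≠ j → JointR (x i) (x j))
    (r : ℕ) : ∃ A : ℝ, 1 ≤ A ∧ ∀ i j, i ≠ j → ∀ b b' : ℕ, 2 ≤ b → 2 ≤ b' → ∀ K K' L L' : ℕ,
      min (L * Real.log b) (L' * Real.log b') ≤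
        A ^ (K + K' + 1) * ((complexity b (x i) r K L + 1) * Real.log b +
          (complexity b' (x j) r K' L' + 1) * Real.log b') := by
  classical
  haveI := Fintype.ofFinite ι
  have h1 : ∀ p : ι × ι, ∃ A : ℝ, 1 ≤ A ∧ (p.1 ≠ p.2 → ∀ b b' : ℕ, 2 ≤ b → 2 ≤ b' →
      ∀ K K' L L' : ℕ, min (L * Real.log b) (L' * Real.log b') ≤
        A ^ (K + K' + 1) * ((complexity b (x p.1) r K L + 1) * Real.log b +
          (complexity b' (x p.2) r K' L' + 1) * Real.log b')) := by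
    intro p
    by_cases hp : p.1 = p.2
    · exact ⟨1, le_rfl, fun h => absurd hp h⟩
    · obtain ⟨A, hA, h⟩ := pair (x p.1) (x p.2) (hx _ _ hp) r
      exact ⟨A, hA, fun _ => h⟩
  choose A hA h using h1
  have hA0 : ∀ p, 0 ≤ A p := fun p => by linarith [hA p]
  refine ⟨1 + ∑ p, A p, ?_, ?_⟩
  · have := Finset.sum_nonneg fun p (_ : p ∈ (Finset.univ : Finset (ι × ι))) => hA0 p
    linarith
  · intro i j hij b b' hb hb' K K' L L'
    refine (h (i, j) hij b b' hb hb' K K' L L').trans ?_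
    have hb0 : 0 ≤ Real.log b := Real.log_nonneg (by exact_mod_cast (by omega : 1 ≤ b))
    have hb0' : 0 ≤ Real.log b' := Real.log_nonneg (by exact_mod_cast (by omega : 1 ≤ b'))
    refine mul_le_mul_of_nonneg_right (pow_le_pow_left₀ (hA0 _) ?_ _) (by positivity)
    have := Finset.single_le_sum (fun p (_ : p ∈ (Finset.univ : Finset (ι × ι))) => hA0 p)
      (Finset.mem_univ (i, j))
    linarith

end Pool.Agent.R473.JC
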