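import Pool.Agent.R473.EC.Err

/-!
# The integer linear form given by a relation
-/

set_option autoImplicit false

namespace Pool.Agent.R473.JC

open Finset Polynomial Module Pool.Agent.W472.AC

/-- the linear form with small integer coefficients given by a relation; compare
`Pool.Agent.W472.AC.main_ineq` -/
theorem exists_form (m k δ L B κ b : ℕ) (hb : 2 ≤ b) (hB : 1 ≤ B) (y : Fin (m + 1) → ℝ) (E : ℝ)
    (G : Fin (m + 1) → ℤ[X])
    (hG : ∀ j i, |(G j).coeff i| ≤ B) (hyG : ∀ j, |y j - ev (1 / b) (G j)| ≤ E * (1 / b) ^ L)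
    (h : Fin (m + 1) → ℚ[X]) (hne : h ≠ 0) (hk : ∀ j, (h j).natDegree ≤ k)
    (hrel : X ^ (L + 1) ∣ ∑ j, h j * (G j).map (Int.castRingHom ℚ))
    (hκ : (m + 1) * (k + δ + 1) ≤ κ * (δ + 1)) (H : ℕ)
    (hH : H = ((m + 1) * (k + δ + 1) * B) ^ κ) :
    ∃ a : Fin (m + 1) → ℤ, a ≠ 0 ∧ (∀ j, |(a j : ℝ)| ≤ 2 * H * (b : ℝ) ^ (k + δ)) ∧
      |∑ j, (a j : ℝ) * y j| ≤
        (b : ℝ) ^ (k + δ) * ((1 / b) ^ L * (2 * (m + 1) * H * ((k + δ + 1) * B + E))) := by
  obtain ⟨t, ht0, htd, htH, htX⟩ := small_rel m k δ (L + 1) B κ hB G hG h hne hk hrel hκ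
  rw [← hH] at htH
  obtain ⟨s, hsd, hsH, hsX, j0, hj0⟩ := nonvanish m (L + 1) b H hb G (k + δ) t ht0 htd htH htX
  set K := k + δ with hK
  have hbR : (2 : ℝ) ≤ b := by exact_mod_cast hb
  have hb0 : (0 : ℝ) < b := by linarith
  set z : ℝ := 1 / b with hz
  have hz0 : 0 < z := by positivity
  have hz1 : z ≤ 1 / 2 := by
    rw [hz]; exact one_div_le_one_div_of_le (by norm_num) hbR
  set a : Fin (m + 1) → ℤ := fun j => ∑ i ∈ range (K + 1), (s j).coeff i * (b : ℤ) ^ (K - i) with ha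
  have ha0 : a ≠ 0 := fun h0 => hj0 (congrFun h0 j0)
  have haev : ∀ j, (a j : ℝ) = (b : ℝ) ^ K * ev z (s j) := by
    intro j
    rw [ev_eq z (s j) (K + 1) (by have := hsd j; omega), ha, Finset.mul_sum]
    push_cast
    refine Finset.sum_congr rfl fun i hi => ?_
    rw [mem_range] at hi
    have e : (b : ℝ) ^ K = (b : ℝ) ^ (K - i) * (b : ℝ) ^ i := by
      rw [← pow_add]; congr 1; omega
    rw [e, hz, div_pow, one_pow]
    field_simp
  have hsev : ∀ j, |ev z (s j)| ≤ 2 * H := by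
    intro j
    refine ev_abs z hz0.le hz1 (s j) H (by positivity) fun i => ?_
    exact_mod_cast hsH j i
  have haH : ∀ j, |(a j : ℝ)| ≤ 2 * H * (b : ℝ) ^ K := by
    intro j
    rw [haev, abs_mul, abs_of_pos (by positivity : (0 : ℝ) < (b : ℝ) ^ K), mul_comm]
    exact mul_le_mul_of_nonneg_right (hsev j) (by positivity)
  refine ⟨a, ha0, haH, ?_⟩
  have e1 : ∑ j, (a j : ℝ) * y j =
      (b : ℝ) ^ K * (ev z (∑ j, s j * G j) + ∑ j, ev z (s j) * (y j - ev z (G j))) := by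
    rw [ev_sum]
    simp only [ev_mul]
    rw [← Finset.sum_add_distrib, Finset.mul_sum]
    refine Finset.sum_congr rfl fun j _ => ?_
    rw [haev]
    ring
  have e2 : |ev z (∑ j, s j * G j)| ≤ 2 * ((m + 1) * (K + 1) * H * B) * z ^ (L + 1) := by
    refine ev_abs_dvd z hz0.le hz1 _ _ (by positivity) (fun i => ?_) (L + 1) hsX
    have := coeff_sum_bound m K H B s G hsd hsH hG i
    exact_mod_cast this
  have e3 : |∑ j, ev z (s j) * (y j - ev z (G j))| ≤ (m + 1) * (2 * H * (E * z ^ L)) := by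
    calc |∑ j, ev z (s j) * (y j - ev z (G j))|
        ≤ ∑ j, |ev z (s j) * (y j - ev z (G j))| := Finset.abs_sum_le_sum_abs _ _
      _ ≤ ∑ _j : Fin (m + 1), 2 * H * (E * z ^ L) := by
          refine Finset.sum_le_sum fun j _ => ?_
          rw [abs_mul]
          exact mul_le_mul (hsev j) (hyG j) (abs_nonneg _) (by positivity)
      _ = (m + 1) * (2 * H * (E * z ^ L)) := by
          rw [Finset.sum_const, Finset.card_univ, Fintype.card_fin, nsmul_eq_mul]
          push_cast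
          ring
  rw [e1, abs_mul, abs_of_pos (by positivity : (0 : ℝ) < (b : ℝ) ^ K)]
  refine mul_le_mul_of_nonneg_left ?_ (by positivity)
  refine (abs_add_le _ _).trans ((add_le_add e2 e3).trans ?_)
  have e4 : z ^ (L + 1) ≤ z ^ L := by
    rw [pow_succ]
    have : 0 ≤ z ^ L := by positivity
    nlinarith
  have e5 : 2 * ((m + 1) * (K + 1) * H * B) * z ^ (L + 1) ≤
      2 * (((m : ℝ) + 1) * (K + 1) * H * B) * z ^ L :=
    mul_le_mul_of_nonneg_left e4 (by positivity)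
  have e6 : ((K : ℕ) : ℝ) = (k : ℝ) + δ := by rw [hK]; push_cast; ring
  calc 2 * ((m + 1) * (K + 1) * H * B) * z ^ (L + 1) + (m + 1) * (2 * H * (E * z ^ L))
      ≤ 2 * (((m : ℝ) + 1) * (K + 1) * H * B) * z ^ L + (m + 1) * (2 * H * (E * z ^ L)) := by
        linarith
    _ = z ^ L * (2 * (m + 1) * H * ((k + δ + 1) * B + E)) := by rw [e6]; ring

end Pool.Agent.R473.JC
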