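import Pool.Agent.R473.JC.Form
import Pool.Agent.R356.Four

/-!
# The integer polynomial given by a relation for the digits of one number
-/

set_option autoImplicit false

namespace Pool.Agent.R473.JC

open Finset Polynomial Module Pool.Agent.W472.AC Pool.Agent.R473.EC Pool.Agent.TH629.ExpDig
  Pool.Agent.R356

/-- a relation of degree `≤ r` with coefficients of degree `≤ k` for the polynomial of the terms
`1, …, L` of the sequence `s` -/
def ARel (s : ℕ → ℤ) (r L k : ℕ) : Prop :=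
  ∃ h : Fin (r + 1) → ℚ[X], h ≠ 0 ∧ (∀ j, (h j).natDegree ≤ k) ∧
    X ^ (L + 1) ∣ ∑ j, h j * sQ s L ^ (j : ℕ)

lemma ARel.trunc {s : ℕ → ℤ} {r L k : ℕ} (h : ARel s r L k) (L' : ℕ) (hL : L' ≤ L) :
    ARel s r L' k := by
  have e : ∀ (M : ℕ) (j : Fin (r + 1)), ∏ i : Fin 1, sQ ((fun _ => s) i) M ^
      (fun (j : Fin (r + 1)) (_ : Fin 1) => (j : ℕ)) j i = sQ s M ^ (j : ℕ) := by
    intro M j
    simp
  obtain ⟨h, h0, hd, hX⟩ := h
  have h1 : SRel (fun _ : Fin 1 => s) (fun (j : Fin (r + 1)) (_ : Fin 1) => (j : ℕ)) L k := by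
    refine ⟨h, h0, hd, ?_⟩
    simp only [e]
    exact hX
  obtain ⟨h', h0', hd', hX'⟩ := h1.trunc L' hL
  refine ⟨h', h0', hd', ?_⟩
  simp only [e] at hX'
  exact hX'

theorem shifted_poly (u : ℝ) (r : ℕ) (a : Fin (r + 1) → ℤ) (ha : a ≠ 0) (M : ℝ)
    (hM : ∀ j, |(a j : ℝ)| ≤ M) (B : ℕ) (hB : 1 ≤ B) (q : ℤ) (hq : |q| ≤ B) :
    ∃ P : ℤ[X], P ≠ 0 ∧ P.natDegree ≤ r ∧
      (∀ i, |((P.coeff i : ℤ) : ℝ)| ≤ (r + 1) * M * (B * (|u| + 3)) ^ r) ∧
      (aeval u P : ℝ) = (B : ℝ) ^ r * ∑ j, (a j : ℝ) * (Int.fract u + q / B) ^ (j : ℕ) := by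
  have hB0 : (0 : ℝ) < B := by exact_mod_cast hB
  have hB1 : (1 : ℝ) ≤ B := by exact_mod_cast hB
  have hM0 : 0 ≤ M := (abs_nonneg _).trans (hM 0)
  obtain ⟨c, hc⟩ : ∃ c : ℤ, c = q - B * ⌊u⌋ := ⟨_, rfl⟩
  obtain ⟨l, hl⟩ : ∃ l : ℤ[X], l = C (B : ℤ) * X + C c := ⟨_, rfl⟩
  obtain ⟨p0, hp0⟩ : ∃ p0 : ℤ[X], p0 = ∑ j : Fin (r + 1), C (a j * (B : ℤ) ^ (r - (j : ℕ))) *
    X ^ (j : ℕ) := ⟨_, rfl⟩
  have hcoef : ∀ j : Fin (r + 1), p0.coeff j = a j * (B : ℤ) ^ (r - (j : ℕ)) := by
    intro j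
    rw [hp0, finsetSum_coeff, Finset.sum_eq_single j]
    · rw [coeff_C_mul, coeff_X_pow, if_pos rfl, mul_one]
    · intro j' _ hj'
      rw [coeff_C_mul, coeff_X_pow, if_neg, mul_zero]
      intro h
      exact hj' (Fin.ext h.symm)
    · intro h
      exact absurd (Finset.mem_univ _) h
  have hp0ne : p0 ≠ 0 := by
    intro h0
    apply ha
    ext j
    have h1 := hcoef j
    rw [h0, coeff_zero] at h1
    have h2 : (B : ℤ) ^ (r - (j : ℕ)) ≠ 0 := by positivity
    exact (mul_eq_zero.1 h1.symm).resolve_right h2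
  have hp0d : p0.natDegree ≤ r := by
    rw [hp0]
    refine natDegree_sum_le_of_forall_le _ _ fun j _ => ?_
    refine (natDegree_C_mul_X_pow_le _ _).trans ?_
    have := j.2
    omega
  have hl1 : l.natDegree = 1 := by
    rw [hl]
    exact natDegree_linear (by positivity)
  have hcomp : p0.comp l = ∑ j : Fin (r + 1), C (a j * (B : ℤ) ^ (r - (j : ℕ))) * l ^ (j : ℕ) := by
    rw [hp0, Polynomial.sum_comp]
    refine Finset.sum_congr rfl fun j _ => ?_
    rw [mul_comp, C_comp, X_pow_comp]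
  refine ⟨p0.comp l, ?_, ?_, ?_, ?_⟩
  · intro h0
    rcases comp_eq_zero_iff.1 h0 with h1 | h1
    · exact hp0ne h1
    · have h2 := h1.2
      rw [h2, natDegree_C] at hl1
      omega
  · rw [natDegree_comp, hl1, mul_one]
    exact hp0d
  · intro i
    have hlen := isLen_int.poly
    have hll : len (fun z : ℤ => |(z : ℝ)|) l ≤ B * (|u| + 3) := by
      rw [hl]
      refine (hlen.add _ _).trans ?_
      rw [len_C isLen_int]
      have h1 : len (fun z : ℤ => |(z : ℝ)|) (C (B : ℤ) * X) ≤ B := by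
        refine (hlen.mul _ _).trans ?_
        rw [len_C isLen_int]
        have h2 : len (fun z : ℤ => |(z : ℝ)|) (X : ℤ[X]) ≤ 1 := by
          rw [len_eq isLen_int X 2 (by simp), Finset.sum_range_succ, Finset.sum_range_succ]
          simp
        calc |(((B : ℕ) : ℤ) : ℝ)| * len (fun z : ℤ => |(z : ℝ)|) X ≤ |(((B : ℕ) : ℤ) : ℝ)| * 1 :=
              mul_le_mul_of_nonneg_left h2 (abs_nonneg _)
          _ = B := by
              rw [mul_one]
              push_cast
              exact abs_of_pos hB0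
      have h2 : |(c : ℝ)| ≤ B + B * (|u| + 1) := by
        rw [hc]
        push_cast
        have h3 : |(q : ℝ)| ≤ B := by exact_mod_cast hq
        have h4 : |((⌊u⌋ : ℤ) : ℝ)| ≤ |u| + 1 := by
          have h5 := Int.floor_le u
          have h6 := Int.lt_floor_add_one u
          rw [abs_le]
          constructor
          · have := neg_abs_le u
            linarith
          · have := le_abs_self u
            linarith
        calc |(q : ℝ) - B * ⌊u⌋| ≤ |(q : ℝ)| + |(B : ℝ) * ⌊u⌋| := abs_sub _ _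
          _ ≤ B + B * (|u| + 1) := by
              rw [abs_mul, abs_of_pos hB0]
              exact add_le_add h3 (mul_le_mul_of_nonneg_left h4 hB0.le)
      calc len (fun z : ℤ => |(z : ℝ)|) (C (B : ℤ) * X) + |(c : ℝ)|
          ≤ B + (B + B * (|u| + 1)) := add_le_add h1 h2
        _ = B * (|u| + 3) := by ring
    have hpow : ∀ j : ℕ, len (fun z : ℤ => |(z : ℝ)|) (l ^ j) ≤ (B * (|u| + 3)) ^ j := by
      intro j
      induction j with
      | zero =>
        rw [pow_zero, pow_zero]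
        exact hlen.one
      | succ j ih =>
        rw [pow_succ, pow_succ]
        exact (hlen.mul _ _).trans (mul_le_mul ih hll (hlen.nonneg _) (by positivity))
    have hu3 : (1 : ℝ) ≤ |u| + 3 := by
      have := abs_nonneg u
      linarith
    refine (le_len isLen_int _ i).trans ?_
    rw [hcomp]
    refine (hlen.sum _ _).trans ?_
    calc ∑ j : Fin (r + 1), len (fun z : ℤ => |(z : ℝ)|)
          (C (a j * (B : ℤ) ^ (r - (j : ℕ))) * l ^ (j : ℕ))
        ≤ ∑ _j : Fin (r + 1), M * (B * (|u| + 3)) ^ r := by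
          refine Finset.sum_le_sum fun j _ => ?_
          refine (hlen.mul _ _).trans ?_
          rw [len_C isLen_int]
          push_cast
          rw [abs_mul, abs_of_pos (by positivity : (0 : ℝ) < (B : ℝ) ^ (r - (j : ℕ)))]
          have h1 := hM j
          have h2 := hpow j
          have h3 : (B : ℝ) ^ (r - (j : ℕ)) * (B * (|u| + 3)) ^ (j : ℕ) ≤ (B * (|u| + 3)) ^ r := by
            have hj : (j : ℕ) ≤ r := by have := j.2; omega
            calc (B : ℝ) ^ (r - (j : ℕ)) * (B * (|u| + 3)) ^ (j : ℕ)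
                ≤ (B * (|u| + 3)) ^ (r - (j : ℕ)) * (B * (|u| + 3)) ^ (j : ℕ) := by
                  refine mul_le_mul_of_nonneg_right (pow_le_pow_left₀ hB0.le ?_ _) (by positivity)
                  nlinarith
              _ = (B * (|u| + 3)) ^ r := by
                  rw [← pow_add]; congr 1; omega
          calc |(a j : ℝ)| * (B : ℝ) ^ (r - (j : ℕ)) * len (fun z : ℤ => |(z : ℝ)|) (l ^ (j : ℕ))
              ≤ |(a j : ℝ)| * (B : ℝ) ^ (r - (j : ℕ)) * (B * (|u| + 3)) ^ (j : ℕ) :=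
                mul_le_mul_of_nonneg_left h2 (by positivity)
            _ = |(a j : ℝ)| * ((B : ℝ) ^ (r - (j : ℕ)) * (B * (|u| + 3)) ^ (j : ℕ)) := by ring
            _ ≤ M * (B * (|u| + 3)) ^ r := mul_le_mul h1 h3 (by positivity) hM0
      _ = (r + 1) * M * (B * (|u| + 3)) ^ r := by
          rw [Finset.sum_const, Finset.card_univ, Fintype.card_fin, nsmul_eq_mul]
          push_cast
          ring
  · rw [hcomp, map_sum, Finset.mul_sum]
    refine Finset.sum_congr rfl fun j _ => ?_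
    have hlu : (aeval u l : ℝ) = B * (Int.fract u + q / B) := by
      rw [hl, hc]
      simp only [map_add, map_mul, aeval_C, aeval_X, map_sub, map_natCast,
        algebraMap_int_eq, Int.coe_castRingHom]
      unfold Int.fract
      field_simp
      push_cast
      ring
    rw [map_mul, map_pow, aeval_C, hlu, mul_pow]
    have hj : (j : ℕ) ≤ r := by have := j.2; omega
    have h2 : (B : ℝ) ^ r = (B : ℝ) ^ (r - (j : ℕ)) * (B : ℝ) ^ (j : ℕ) := by
      rw [← pow_add]; congr 1; omega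
    rw [h2]
    simp only [algebraMap_int_eq, Int.coe_castRingHom]
    push_cast
    ring

end Pool.Agent.R473.JC
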